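import Pool.Agent.H37.Oca3

namespace Pool.Agent.Results.MP_9ec89f_lc.AllTwelve

open Pool.Agent.H37.Oca Filter Asymptotics

theorem result (h : Head) :
    (Tight Unit h Notion.weak (fun n => ((Nat.log 2 n : ℕ) : ℝ)) ∧
      Tight Unit h Notion.middle (fun n => (n : ℝ)) ∧
      Tight Unit h Notion.strong (fun n => (n : ℝ))) ∧
    (Tight Bool h Notion.weak (fun n => ((Nat.log 2 n : ℕ) : ℝ)) ∧
      Tight Bool h Notion.middle (fun n => ((Nat.log 2 n : ℕ) : ℝ)) ∧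
      Tight Bool h Notion.strong (fun n => (n : ℝ))) := by
  refine ⟨⟨⟨⟨fun n => Nat.log 2 n + 1, ⟨MU, fun _ => MU_realtime, MU_nonreg, MU_weak⟩, log_bigO⟩, ?_⟩,
    ⟨⟨id, ⟨MU, fun _ => MU_realtime, MU_nonreg, MU_strong.middle⟩, isBigO_refl _ _⟩, ?_⟩,
    ⟨⟨id, ⟨MU, fun _ => MU_realtime, MU_nonreg, MU_strong⟩, isBigO_refl _ _⟩, ?_⟩⟩,
    ⟨⟨⟨fun n => Nat.log 2 n + 1, ⟨MB, fun _ => MB_realtime, MB_nonreg, MB_middle.weak⟩, log_bigO⟩, ?_⟩,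
    ⟨⟨fun n => Nat.log 2 n + 1, ⟨MB, fun _ => MB_realtime, MB_nonreg, MB_middle⟩, log_bigO⟩, ?_⟩,
    ⟨⟨id, ⟨MB, fun _ => MB_realtime, MB_nonreg, MB_strong⟩, isBigO_refl _ _⟩, ?_⟩⟩⟩ <;>
    rintro ⟨s, ⟨M, -, hr, hb⟩, ho⟩
  · exact CA.lb_weak hb hr ho
  · exact CA.lb_unary hb hr ho
  · exact CA.lb_strong hb hr ho
  · exact CA.lb_weak hb hr ho
  · exact CA.lb_weak (CA.Middle.weak hb) hr ho
  · exact CA.lb_strong hb hr ho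

end Pool.Agent.Results.MP_9ec89f_lc.AllTwelve
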